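import Mathlib
import Pool.Agent.R151.SpiralCount

/-!
# Maximum contact numbers at the order-7 triangular tiling distance
-/

namespace Pool.Agent.Results.MP_0702e0_co.SpiralBoundSeven

open Pool.Agent.R151.Spiral

/-- There is exactly one `d = d(7) > 0` whose equilateral hyperbolic triangle has the
angle `2π/7`, and for every `n ≥ 1` one has
`⌊(7/2) n - √((5/4) n² + 15 n - 4)⌋ ≤ e_{d(7)}(n)`. -/
theorem result :
    (∃! d : ℝ, 0 < d ∧ triAngle d = 2 * Real.pi / 7) ∧
    ∀ d : ℝ, 0 < d → triAngle d = 2 * Real.pi / 7 →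
      ∀ n : ℕ, 1 ≤ n →
        ⌊(7 / 2 : ℝ) * n - √((5 / 4 : ℝ) * n ^ 2 + 15 * n - 4)⌋ ≤ (maxTouching d n : ℤ) := by
  refine ⟨by exact_mod_cast existsUnique_side (k := 7) le_rfl, fun d hd h n hn => ?_⟩
  have h7 : triAngle d = 2 * Real.pi / (7 : ℕ) := by exact_mod_cast h
  have hmain := floor_U_le (k := 7) le_rfl hd h7 hn
  have hpi := Real.pi_pos
  have e1 : Real.pi / triAngle d = 7 / 2 := by rw [h]; field_simp
  have e2 : 2 * Real.pi / triAngle d = 7 := by rw [h]; field_simp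
  have e : U d n = (7 / 2 : ℝ) * n - √((5 / 4 : ℝ) * n ^ 2 + 15 * n - 4) := by
    simp only [U]
    rw [e1, e2]
    congr 2
    ring
  rw [← e]
  exact hmain

end Pool.Agent.Results.MP_0702e0_co.SpiralBoundSeven
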